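import Pool.Agent.Helper96.NSF.Fresh
import Pool.Agent.Helper40.Eps.Step
import Pool.Agent.Helper36.Eps.Bas

/-! # SMK: the strong Markov property for groups -/

open scoped ENNReal
open Finset

namespace Pool.Agent.Helper56.NSF

open Pool.Agent.Helper92.Eps
open Pool.Agent.Helper99.ZZ
open Pool.Agent.Helper96.NSF
open _root_.Helper36.Eps (iv_pos iv_neg iv_mono GG_const H_append)

theorem SMK : SMK_stmt := by
  intro B D A hA h y k R0 R φ K hy
  induction k generalizing R with
  | zero =>
    intro hR hK
    have h1 := hK R (by omega)
    refine le_trans (hA.GG_mono _ _ _ fun l _ => ?_) h1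
    rw [iv_pos (by simp [gl])]
    simp [gl]
  | succ k ih =>
    intro hR hK
    have hyR : y ≤ R := by
      have : (k + 1) * y = k * y + y := by ring
      omega
    rw [hA.GG_split h R _ (hy.trans hyR)]
    rw [← GG_const hA h K]
    refine hA.GG_mono _ _ _ fun p hp => ?_
    have hpp : A.fpp h p = p := by
      have := Pool.Agent.Helper92.Eps.Step.fpp_app hp []
      simpa using this
    split_ifs with h1
    · rw [iv_neg]
      · exact zero_le
      · intro h2
        have h3 := h2 p (by simp [gl, hpp])
        omega
    · push Not at h1
      by_cases h2 : A.H p ≤ y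
      · have h3 : k * y + R0 ≤ R - A.H p := by
          have : (k + 1) * y = k * y + y := by ring
          omega
        refine le_trans (hA.GG_mono _ _ _ fun q _ => ?_) (ih (R - A.H p) h3 hK)
        have hpq : A.fpp h (p ++ q) = p := Pool.Agent.Helper92.Eps.Step.fpp_app hp q
        have hgl : gl A h (k + 1) (p ++ q) = p :: gl A h k q := by
          simp [gl, hpq]
        rw [hgl]
        have hfl : (p ++ q).drop (p :: gl A h k q).flatten.length =
            q.drop (gl A h k q).flatten.length := by
          rw [List.flatten_cons, List.length_append, List.drop_append]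
          simp
        rw [hfl]
        exact iv_mono (fun h4 g hg => h4 g (List.mem_cons_of_mem _ hg)) fun _ => le_rfl
      · refine le_trans (hA.GG_mono _ _ (fun _ => 0) fun q _ => ?_) ?_
        · have hpq : A.fpp h (p ++ q) = p := Pool.Agent.Helper92.Eps.Step.fpp_app hp q
          rw [iv_neg]
          intro h3
          exact h2 (h3 p (by simp [gl, hpq]))
        · rw [GG_const hA]
          exact zero_le

end Pool.Agent.Helper56.NSF
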